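import Pool.Agent.Helper20_TWS.Stmts

/-! Module TRA: transport of exactness along an injective map of vertices. -/

set_option autoImplicit false

namespace Pool.Agent.TWS.H11

open Pool.Agent.TOR Pool.Agent.TOR.H58 Finsupp

variable {V W M : Type} [AddCommGroup M]

/-- the map of chains induced by a map of vertices -/
noncomputable def mq (f : V → W) : (List V →₀ M) →+ (List W →₀ M) :=
  Finsupp.mapDomain.addMonoidHom (List.map f)

theorem mq_apply (f : V → W) (c : List V →₀ M) : mq f c = Finsupp.mapDomain (List.map f) c := rfl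

theorem mq_single (f : V → W) (l : List V) (m : M) :
    mq f (single l m) = single (l.map f) m := by
  rw [mq_apply, Finsupp.mapDomain_single]

theorem mq_cns (f : V → W) (v : V) (c : List V →₀ M) :
    mq f (cns v c) = cns (f v) (mq f c) := by
  induction c using Finsupp.induction_linear with
  | zero => simp
  | add g h hg hh => rw [map_add, map_add, hg, hh, map_add, map_add]
  | single l m => rw [cns_single, mq_single, mq_single, cns_single, List.map_cons]

theorem mq_bd (f : V → W) (c : List V →₀ M) : mq f (bd c) = bd (mq f c) := by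
  induction c using Finsupp.induction_linear with
  | zero => simp
  | add g h hg hh => rw [map_add, map_add, hg, hh, map_add, map_add]
  | single l m =>
    rw [mq_single, bd_single, bd_single]
    induction l with
    | nil => simp [bd1_nil]
    | cons v l ih =>
      rw [List.map_cons, bd1_cons, bd1_cons, map_sub, mq_cns, ih, mq_single]

theorem mq_inj (f : V → W) (hf : Function.Injective f) :
    Function.Injective (mq f : (List V →₀ M) →+ (List W →₀ M)) :=
  Finsupp.mapDomain_injective (List.map_injective_iff.2 hf)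

theorem set_map (f : V → W) (l : List V) : {a | a ∈ l.map f} = f '' {a | a ∈ l} := by
  ext a
  simp

theorem mq_mem (f : V → W) (K : Set V → Prop) (K' : Set W → Prop)
    (h : ∀ s, K' (f '' s) ↔ K s) (p : ℕ) {c : List V →₀ M}
    (hc : c ∈ Sup M (fun l => KL K l ∧ l.length = p)) :
    mq f c ∈ Sup M (fun l => KL K' l ∧ l.length = p) := by
  rw [← Finsupp.sum_single c, Finsupp.sum, map_sum]
  refine AddSubgroup.sum_mem _ fun l hl => ?_
  rw [mq_single]
  have h1 := hc l (Finsupp.mem_support_iff.mp hl)
  refine single_mem_Sup ⟨?_, by rw [List.length_map]; exact h1.2⟩ _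
  rw [KL, set_map, h]
  exact h1.1

theorem mq_surj (f : V → W) (hf : Function.Injective f) (K : Set V → Prop) (K' : Set W → Prop)
    (hK' : Dn K') (h : ∀ s, K' (f '' s) ↔ K s) (hr : ∀ w, K' {w} → ∃ v, f v = w) (p : ℕ)
    {c : List W →₀ M} (hc : c ∈ Sup M (fun l => KL K' l ∧ l.length = p)) :
    ∃ b ∈ Sup M (fun l => KL K l ∧ l.length = p), mq f b = c := by
  have hinj : Function.Injective (List.map f) := List.map_injective_iff.2 hf
  have hlist : ∀ l : List W, (∀ w ∈ l, ∃ v, f v = w) → ∃ l', List.map f l' = l := by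
    intro l
    induction l with
    | nil => exact fun _ => ⟨[], rfl⟩
    | cons w l ih =>
      intro hl
      obtain ⟨v, hv⟩ := hl w List.mem_cons_self
      obtain ⟨l', hl'⟩ := ih fun w hw => hl w (List.mem_cons_of_mem _ hw)
      exact ⟨v :: l', by rw [List.map_cons, hv, hl']⟩
  have hsub : (c.support : Set (List W)) ⊆ Set.range (List.map f) := by
    intro l hl
    have h1 := hc l (Finsupp.mem_support_iff.mp hl)
    refine hlist l fun w hw => hr w (hK' _ _ ?_ h1.1)
    rintro a rfl
    exact hw
  refine ⟨Finsupp.comapDomain (List.map f) c hinj.injOn, ?_, ?_⟩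
  · intro l hl
    rw [Finsupp.comapDomain_apply] at hl
    have h1 := hc _ hl
    refine ⟨?_, by simpa using h1.2⟩
    have h2 := h1.1
    rw [KL, set_map, h] at h2
    exact h2
  · rw [mq_apply]
    exact Finsupp.mapDomain_comapDomain _ hinj _ hsub

/-- TRA -/
theorem tra : TraS := by
  intro V W M _ f K K' p hf hK' h hr
  constructor
  · intro hE z hz
    obtain ⟨hz1, hz2⟩ := hz
    have hz2 : bd z = 0 := hz2
    obtain ⟨b', hb', hb⟩ := hE (show mq f z ∈ Zc M K' p from
      ⟨mq_mem f K K' h p hz1, by
        change bd (mq f z) = 0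
        rw [← mq_bd, hz2, map_zero]⟩)
    obtain ⟨b, hb1, hb2⟩ := mq_surj f hf K K' hK' h hr (p + 1) hb'
    refine ⟨b, hb1, mq_inj f hf ?_⟩
    rw [mq_bd, hb2]
    exact hb
  · intro hE z hz
    obtain ⟨hz1, hz2⟩ := hz
    have hz2 : bd z = 0 := hz2
    obtain ⟨y, hy1, hy2⟩ := mq_surj f hf K K' hK' h hr p hz1
    obtain ⟨b, hb, hb'⟩ := hE (show y ∈ Zc M K p from ⟨hy1, by
      change bd y = 0
      refine mq_inj f hf ?_
      rw [mq_bd, hy2, hz2, map_zero]⟩)
    refine ⟨mq f b, mq_mem f K K' h (p + 1) hb, ?_⟩
    have hb'' : bd b = y := hb'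
    rw [← mq_bd, hb'', hy2]

end Pool.Agent.TWS.H11
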